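import Pool.Agent.helper19.MX.SpecC

/-!
# Row ENG: the specialisation theorem (MP_a875de_ag)
-/

set_option linter.unusedVariables false

namespace MX

open Pool.Agent.helper53.AU AN
open scoped Classical Topology IntermediateField
open Finset (range powerset Icc)

noncomputable section

/-- the finite set of the places where a function of a finite set has a zero or a pole -/
theorem ENG_poles (hQV4 : QV4_stmt) (k F : Type) [Field k] [IsAlgClosed k] [Field F] [Algebra k F]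
    (hF : IsFF k F) (S : Finset F) : ∃ B : Finset (Place k F), ∀ P ∉ B, ∀ f ∈ S, P.Ge 0 f := by
  induction S using Finset.induction_on with
  | empty => exact ⟨∅, fun P _ f hf => absurd hf (Finset.notMem_empty f)⟩
  | insert a S ha ih =>
    obtain ⟨B, hB⟩ := ih
    by_cases h0 : a = 0
    · refine ⟨B, fun P hP f hf => ?_⟩
      rcases Finset.mem_insert.1 hf with rfl | hf
      · exact Or.inl h0
      · exact hB P hP f hf
    · have hfin := hQV4 k F hF a h0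
      refine ⟨B ∪ hfin.toFinset, fun P hP f hf => ?_⟩
      rw [Finset.mem_union, not_or, Set.Finite.mem_toFinset, Function.notMem_support] at hP
      rcases Finset.mem_insert.1 hf with rfl | hf
      · exact Or.inr hP.2.ge
      · exact hB P hP.1 f hf

/-- the ring of the elements which are regular at `P` -/
def ENG_A {F : Type} [Field F] [Algebra kk F] (N : Subfield Lam) (ι : N →+* F) (P : Place kk F) :
    Subring Lam where
  carrier := {z | ∃ hz : z ∈ N, P.Ge 0 (ι ⟨z, hz⟩)}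
  mul_mem' := by
    rintro a b ⟨ha, ha'⟩ ⟨hb, hb'⟩
    refine ⟨N.mul_mem ha hb, ?_⟩
    have e : ι ⟨a * b, N.mul_mem ha hb⟩ = ι ⟨a, ha⟩ * ι ⟨b, hb⟩ := by
      rw [← map_mul]; rfl
    rw [e]
    simpa using ha'.mul hb'
  one_mem' := by
    refine ⟨N.one_mem, ?_⟩
    have e : ι ⟨1, N.one_mem⟩ = 1 := map_one ι
    rw [e]
    exact Or.inr (by rw [P.ord_one])
  add_mem' := by
    rintro a b ⟨ha, ha'⟩ ⟨hb, hb'⟩
    refine ⟨N.add_mem ha hb, ?_⟩
    have e : ι ⟨a + b, N.add_mem ha hb⟩ = ι ⟨a, ha⟩ + ι ⟨b, hb⟩ := by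
      rw [← map_add]; rfl
    rw [e]
    exact ha'.add hb'
  zero_mem' := by
    refine ⟨N.zero_mem, ?_⟩
    have e : ι ⟨0, N.zero_mem⟩ = 0 := map_zero ι
    rw [e]
    exact P.ge_zero 0
  neg_mem' := by
    rintro a ⟨ha, ha'⟩
    refine ⟨N.neg_mem ha, ?_⟩
    have e : ι ⟨-a, N.neg_mem ha⟩ = -ι ⟨a, ha⟩ := by
      rw [← map_neg]; rfl
    rw [e]
    exact ha'.neg

/-- the homomorphism defined by the values -/
theorem ENG_phi {F : Type} [Field F] [Algebra kk F] (N : Subfield Lam) (ι : N →+* F) (P : Place kk F)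
    (K : Type) [Field K] (j : K →+* kk) (ρ : F → kk) (h1 : ρ 1 = 1) (h0 : ρ 0 = 0)
    (hr : ∀ f g : F, P.Ge 0 f → P.Ge 0 g → ρ (f + g) = ρ f + ρ g ∧ ρ (f * g) = ρ f * ρ g)
    (hj : ∀ z : N, P.Ge 0 (ι z) → ∃ a : K, j a = ρ (ι z)) :
    ∃ φ : ENG_A N ι P →+* K, ∀ (z : Lam) (hz : z ∈ N) (hz' : z ∈ ENG_A N ι P),
      j (φ ⟨z, hz'⟩) = ρ (ι ⟨z, hz⟩) := by
  have hc : ∀ z : ENG_A N ι P, ∃ a : K, j a = ρ (ι ⟨z.1, z.2.choose⟩) := fun z =>
    hj _ z.2.choose_spec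
  choose g hg using hc
  have hge : ∀ z : ENG_A N ι P, P.Ge 0 (ι ⟨z.1, z.2.choose⟩) := fun z => z.2.choose_spec
  refine ⟨{ toFun := g, map_one' := ?_, map_mul' := ?_, map_zero' := ?_, map_add' := ?_ }, ?_⟩
  · apply j.injective
    rw [hg, map_one]
    have e : ι ⟨((1 : ENG_A N ι P) : Lam), (1 : ENG_A N ι P).2.choose⟩ = 1 := map_one ι
    rw [e, h1]
  · intro a b
    apply j.injective
    rw [map_mul, hg, hg, hg]
    have e : ι ⟨((a * b : ENG_A N ι P) : Lam), (a * b : ENG_A N ι P).2.choose⟩ =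
        ι ⟨a.1, a.2.choose⟩ * ι ⟨b.1, b.2.choose⟩ := by
      rw [← map_mul]; rfl
    rw [e, (hr _ _ (hge a) (hge b)).2]
  · apply j.injective
    rw [hg, map_zero]
    have e : ι ⟨((0 : ENG_A N ι P) : Lam), (0 : ENG_A N ι P).2.choose⟩ = 0 := map_zero ι
    rw [e, h0]
  · intro a b
    apply j.injective
    rw [map_add, hg, hg, hg]
    have e : ι ⟨((a + b : ENG_A N ι P) : Lam), (a + b : ENG_A N ι P).2.choose⟩ =
        ι ⟨a.1, a.2.choose⟩ + ι ⟨b.1, b.2.choose⟩ := by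
      rw [← map_add]; rfl
    rw [e, (hr _ _ (hge a) (hge b)).1]
  · intro z hz hz'
    exact hg ⟨z, hz'⟩

/-- THE SPECIALISATION THEOREM. -/
theorem ENG (hFBR : FBR_stmt) (hCNT : CNT_stmt) (hEV1 : EV1_stmt) (hEV2 : EV2_stmt)
    (hEV3 : EV3_stmt) (hQV4 : QV4_stmt) : ENG_stmt := by
  have hchar : CharP kk 2 := charP_of_injective_algebraMap (algebraMap (ZMod 2) kk).injective 2
  intro E
  obtain ⟨F, _, _, s, ys, N, ι, hs, hEN, hιs, hys, hFF, htr, hGal, hα⟩ := hFBR E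
  have hmem : ∀ z : {x : Lam // x ∈ E}, z.1 ∈ N := fun z => hEN (Finset.mem_coe.2 z.2)
  obtain ⟨B, hB⟩ := ENG_poles hQV4 kk F hFF
    (({s⁻¹, ys} : Finset F) ∪ E.attach.image (fun z : {x : Lam // x ∈ E} => ι ⟨z.1, hmem z⟩))
  obtain ⟨n₀, hn₀⟩ := hCNT kk F hFF s htr hGal B
  refine ⟨n₀, fun n hn K _ _ hK e he => ?_⟩
  -- the sign
  obtain ⟨ek, hek, hps⟩ : ∃ ek : kk, (ek = 0 ∨ ek = 1) ∧
      ∀ (j : K →+* kk), (∀ c : kk, c ^ (4 ^ n) = c → ∃ a : K, j a = c) → ∀ (z : K) (y : kk),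
        y ^ 2 + y = j z → y ^ (4 ^ n) = y + ek → ps z = e := by
    rcases he with rfl | rfl
    · refine ⟨0, Or.inl rfl, fun j hj z y hy hyn => ?_⟩
      rw [add_zero] at hyn
      exact (hEV3 K n hK j hj z y hy).1 hyn
    · exact ⟨1, Or.inr rfl, fun j hj z y hy hyn => (hEV3 K n hK j hj z y hy).2 hyn⟩
  obtain ⟨α, hα1, hα2, hα3, hα4⟩ := hα n (algebraMap kk F ek) (by
    rcases hek with rfl | rfl
    · left; exact map_zero _
    · right; exact map_one _)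
  obtain ⟨P, hPB, hP⟩ := hn₀ n hn α hα1 hα2
  obtain ⟨ρ, hρ0, hρ1, hρz, hρr, hρα⟩ := hEV1 kk F hFF P
  obtain ⟨j, hj⟩ := hEV2 K n hK
  have hfix : ∀ z : N, P.Ge 0 (ι z) → ρ (ι z) ^ (4 ^ n) = ρ (ι z) := by
    intro z hz
    have h1 := hρα n α hα1 hP (ι z) 0 hz (Or.inl rfl) (by rw [hα3, map_zero, add_zero])
    rwa [add_zero] at h1
  obtain ⟨φ, hφ⟩ := ENG_phi N ι P K j ρ hρ1 hρz hρr (fun z hz => hj _ (hfix z hz))
  have hsge : P.Ge 0 s⁻¹ := hB P hPB _ (Finset.mem_union_left _ (Finset.mem_insert_self _ _))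
  have hyge : P.Ge 0 ys := hB P hPB _ (Finset.mem_union_left _
    (Finset.mem_insert_of_mem (Finset.mem_singleton_self _)))
  have hθN : thL ∈ N := N.pow_mem (N.inv_mem hs) 3
  have hιθ : ι ⟨thL, hθN⟩ = (s⁻¹) ^ 3 := by
    rw [← hιs, ← map_inv₀, ← map_pow]
    rfl
  have hs3 : P.Ge 0 ((s⁻¹) ^ 3) := by
    have := hsge.pow 3
    simpa using this
  have hθA : thL ∈ ENG_A N ι P := ⟨hθN, by rw [hιθ]; exact hs3⟩
  refine ⟨ENG_A N ι P, φ, hθA, ?_, ?_⟩
  · intro z hz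
    refine ⟨hEN hz, hB P hPB _ (Finset.mem_union_right _ ?_)⟩
    exact Finset.mem_image.2 ⟨⟨z, hz⟩, Finset.mem_attach _ _, rfl⟩
  · refine hps j hj _ (ρ ys) ?_ ?_
    · rw [hφ thL hθN hθA, hιθ, ← hys]
      have hy2 : P.Ge 0 (ys ^ 2) := by
        have := hyge.pow 2
        simpa using this
      rw [(hρr _ _ hy2 hyge).1, pow_two ys, (hρr _ _ hyge hyge).2, pow_two]
    · exact hρα n α hα1 hP ys ek hyge hek hα4

end

end MX
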